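import Mathlib
import Pool.Agent.H299R3.AsA

/-!
# Project CJ: projections of closed sets have the Baire property (in any topological space)
-/

set_option autoImplicit false
set_option linter.unusedSectionVars false

namespace Pool.Agent.NH40.CJ

open Set Topology Filter MeasureTheory

namespace Bp

variable {X : Type*} [TopologicalSpace X]

/-- union of the open sets in which `P` is meagre -/
def Osm (P : Set X) : Set X := ⋃₀ {U | IsOpen U ∧ IsMeagre (P ∩ U)}

/-- a regular open set in which `P` is everywhere non-meagre -/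
def Rg (P : Set X) : Set X := interior (Osm P)ᶜ

lemma isOpen_Osm (P : Set X) : IsOpen (Osm P) := isOpen_sUnion fun _ h => h.1

lemma isOpen_Rg (P : Set X) : IsOpen (Rg P) := isOpen_interior

lemma meagre_inter_Osm (P : Set X) : IsMeagre (P ∩ Osm P) := by
  apply H299.As.meagre_of_local
  intro U hU hne
  by_cases h : (U ∩ Osm P).Nonempty
  · obtain ⟨x, hxU, V, ⟨hV, hm⟩, hxV⟩ := h
    refine ⟨U ∩ V, inter_subset_left, hU.inter hV, ⟨x, hxU, hxV⟩, hm.mono ?_⟩
    rintro y ⟨⟨h1, -⟩, -, h3⟩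
    exact ⟨h1, h3⟩
  · refine ⟨U, subset_rfl, hU, hne, ?_⟩
    have h1 : P ∩ Osm P ∩ U = ∅ := by
      rw [eq_empty_iff_forall_notMem]
      rintro y ⟨⟨-, h2⟩, h3⟩
      exact h ⟨y, h3, h2⟩
    rw [h1]
    exact IsMeagre.empty

lemma frontier_meagre {V : Set X} (hV : IsOpen V) : IsMeagre (closure V \ V) := by
  apply IsNowhereDense.isMeagre
  have h : closure V \ V = frontier V := by
    rw [frontier, hV.interior_eq]
  rw [h]
  rw [isClosed_frontier.isNowhereDense_iff]
  exact interior_frontier hV.isClosed_compl |> fun h => by rwa [frontier_compl] at h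

lemma meagre_diff_Rg (P : Set X) : IsMeagre (P \ Rg P) := by
  have h1 : P \ Rg P ⊆ (P ∩ Osm P) ∪ (closure (Osm P) \ Osm P) := by
    rintro x ⟨hxP, hx⟩
    by_cases h : x ∈ Osm P
    · exact Or.inl ⟨hxP, h⟩
    · right
      refine ⟨?_, h⟩
      rw [Rg, interior_compl, mem_compl_iff, not_not] at hx
      exact hx
  exact IsMeagre.mono h1 ((meagre_inter_Osm P).union (frontier_meagre (isOpen_Osm P)))

lemma not_meagre_of_subset_Rg {P U : Set X} (hU : IsOpen U) (hne : U.Nonempty) (hR : U ⊆ Rg P) :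
    ¬ IsMeagre (P ∩ U) := by
  intro h
  obtain ⟨x, hx⟩ := hne
  have h1 : x ∈ Osm P := ⟨U, ⟨hU, h⟩, hx⟩
  exact interior_subset (hR hx) h1

lemma Rg_subset_closure (P : Set X) : Rg P ⊆ closure P := by
  intro x hx
  rw [mem_closure_iff]
  intro U hU hxU
  have := not_meagre_of_subset_Rg (hU.inter (isOpen_Rg P)) ⟨x, hxU, hx⟩ inter_subset_right
  obtain ⟨y, hy⟩ := nonempty_of_not_isMeagre this
  exact ⟨y, hy.2.1, hy.1⟩

lemma meagre_Rg_diff (P : Set X) (Q : ℕ → Set X)
    (h : P ⊆ ⋃ k, Q k) : IsMeagre (Rg P \ ⋃ k, Rg (Q k)) := by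
  set V : Set X := ⋃ k, Rg (Q k) with hV
  have hVo : IsOpen V := isOpen_iUnion fun k => isOpen_Rg _
  have hW : Rg P ⊆ closure V := by
    by_contra hne
    have hne' : (Rg P ∩ (closure V)ᶜ).Nonempty := by
      rw [not_subset] at hne
      obtain ⟨x, h1, h2⟩ := hne
      exact ⟨x, h1, h2⟩
    refine not_meagre_of_subset_Rg ((isOpen_Rg P).inter isClosed_closure.isOpen_compl) hne'
      inter_subset_left ?_
    have h1 : P ∩ (Rg P ∩ (closure V)ᶜ) ⊆ ⋃ k, (Q k \ Rg (Q k)) := by
      rintro x ⟨hxP, _, hxV⟩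
      obtain ⟨k, hk⟩ := mem_iUnion.1 (h hxP)
      refine mem_iUnion.2 ⟨k, hk, fun hx => hxV (subset_closure ?_)⟩
      exact mem_iUnion.2 ⟨k, hx⟩
    exact IsMeagre.mono h1 (isMeagre_iUnion fun k => meagre_diff_Rg _)
  exact IsMeagre.mono (sdiff_subset_sdiff_left hW) (frontier_meagre hVo)

/-- the points of `C` in the projection, with the first choices prescribed -/
def Pr (C : Set X) (R : Set (X × (ℕ → ℕ))) (s : List ℕ) : Set X :=
  {x | x ∈ C ∧ ∃ z : ℕ → ℕ, (∀ i < s.length, z i = s.getD i 0) ∧ (x, z) ∈ R}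

lemma Pr_step (C : Set X) (R : Set (X × (ℕ → ℕ))) (s : List ℕ) :
    Pr C R s ⊆ ⋃ k, Pr C R (s ++ [k]) := by
  rintro x ⟨hx, z, hz, h⟩
  refine mem_iUnion.2 ⟨z s.length, hx, z, fun i hi => ?_, h⟩
  rw [List.length_append, List.length_singleton] at hi
  rcases Nat.lt_succ_iff_lt_or_eq.1 hi with h1 | h1
  · rw [hz i h1, List.getD_append _ _ _ _ h1]
  · subst h1
    simp

/-- the projection of a set that is closed over a residual set has the Baire property -/
theorem proj_bp (C : Set X) (hC : C ∈ residual X) (R : Set (X × (ℕ → ℕ)))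
    (hR : ∀ w ∈ C, ∀ z, (w, z) ∈ closure {p | p ∈ R ∧ p.1 ∈ C} → (w, z) ∈ R) :
    ∃ U : Set X, IsOpen U ∧ IsMeagre ({w | ∃ z, (w, z) ∈ R} \ U) ∧
      IsMeagre (U \ {w | ∃ z, (w, z) ∈ R}) := by
  have hCc : IsMeagre Cᶜ := by
    rw [IsMeagre, compl_compl]
    exact hC
  refine ⟨Rg (Pr C R []), isOpen_Rg _, ?_, ?_⟩
  · refine ((meagre_diff_Rg (Pr C R [])).union hCc).mono ?_
    rintro w ⟨⟨z, hz⟩, hw⟩
    by_cases hwC : w ∈ C
    · exact Or.inl ⟨⟨hwC, z, by simp, hz⟩, hw⟩
    · exact Or.inr hwC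
  · set M : Set X := ⋃ s : List ℕ, Rg (Pr C R s) \ ⋃ k, Rg (Pr C R (s ++ [k])) with hM
    have hMm : IsMeagre M := isMeagre_iUnion fun s => meagre_Rg_diff _ _ (Pr_step C R s)
    refine IsMeagre.mono ?_ (hMm.union hCc)
    rintro x ⟨hx, hxF⟩
    by_contra hxM
    have hxC : x ∈ C := by
      by_contra h
      exact hxM (Or.inr h)
    have hxM' : x ∉ M := fun h => hxM (Or.inl h)
    apply hxF
    -- build the branch
    have step : ∀ s : List ℕ, x ∈ Rg (Pr C R s) → ∃ k, x ∈ Rg (Pr C R (s ++ [k])) := by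
      intro s hs
      by_contra hno
      apply hxM'
      refine mem_iUnion.2 ⟨s, hs, fun h1 => hno ?_⟩
      exact mem_iUnion.1 h1
    choose! f hf using step
    let sq : ℕ → List ℕ := fun n => Nat.rec [] (fun _ s => s ++ [f s]) n
    have hsq : ∀ n, sq (n + 1) = sq n ++ [f (sq n)] := fun n => rfl
    have hlen : ∀ n, (sq n).length = n := by
      intro n
      induction n with
      | zero => rfl
      | succ n ih => rw [hsq]; simp [ih]
    have hmem : ∀ n, x ∈ Rg (Pr C R (sq n)) := by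
      intro n
      induction n with
      | zero => exact hx
      | succ n ih => rw [hsq]; exact hf _ ih
    let y : ℕ → ℕ := fun n => f (sq n)
    have hy : ∀ n, ∀ i < n, (sq n).getD i 0 = y i := by
      intro n
      induction n with
      | zero => intro i hi; exact absurd hi (Nat.not_lt_zero _)
      | succ n ih =>
        intro i hi
        rw [hsq]
        rcases Nat.lt_succ_iff_lt_or_eq.1 hi with h1 | h1
        · rw [List.getD_append _ _ _ _ (by rw [hlen]; exact h1)]
          exact ih i h1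
        · subst h1
          have : (sq i ++ [f (sq i)]).getD i 0 = (sq i ++ [f (sq i)]).getD (sq i).length 0 := by
            rw [hlen]
          rw [this]
          simp [y]
    refine ⟨y, hR x hxC y ?_⟩
    rw [mem_closure_iff]
    intro O hO hxO
    obtain ⟨u, v, hu, hv, hxu, hyv, huv⟩ := isOpen_prod_iff.1 hO x y hxO
    -- a cylinder in `v`
    obtain ⟨n, hn⟩ : ∃ n : ℕ, ∀ z : ℕ → ℕ, (∀ i < n, z i = y i) → z ∈ v := by
      obtain ⟨F, w, hw1, hw2⟩ := isOpen_pi_iff.1 hv y hyv
      refine ⟨F.sup id + 1, fun z hz => hw2 ?_⟩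
      intro i hi
      have h1 : i < F.sup id + 1 := Nat.lt_succ_of_le (Finset.le_sup (f := id) hi)
      rw [hz i h1]
      exact (hw1 i hi).2
    obtain ⟨x', hx'u, hx'P⟩ := mem_closure_iff.1 (Rg_subset_closure _ (hmem n)) u hu hxu
    obtain ⟨hx'C, z, hz, hzR⟩ := hx'P
    refine ⟨(x', z), huv ⟨hx'u, hn z fun i hi => ?_⟩, hzR, hx'C⟩
    rw [hz i (by rw [hlen]; exact hi), hy n i hi]

/-- a Borel function into a second countable space is continuous on a residual set -/
theorem exists_contOn {G : Type*} [TopologicalSpace G] [SecondCountableTopology G] (f : X → G)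
    (hf : Measurable[borel X, borel G] f) : ∃ C ∈ residual X, ContinuousOn f C := by
  let _ : MeasurableSpace X := borel X
  have : BorelSpace X := ⟨rfl⟩
  let _ : MeasurableSpace G := borel G
  have : BorelSpace G := ⟨rfl⟩
  have h1 : ∀ b ∈ TopologicalSpace.countableBasis G, ∃ u : Set X, IsOpen u ∧
      ∀ᶠ x in residual X, (x ∈ f ⁻¹' b ↔ x ∈ u) := by
    intro b hb
    obtain ⟨u, hu, h⟩ := (hf (TopologicalSpace.isOpen_of_mem_countableBasis hb).measurableSet
      ).residualEq_isOpen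
    exact ⟨u, hu, h.mem_iff⟩
  choose! u hu h2 using h1
  refine ⟨{x | ∀ b ∈ TopologicalSpace.countableBasis G, (x ∈ f ⁻¹' b ↔ x ∈ u b)}, ?_, ?_⟩
  · exact (eventually_countable_ball (TopologicalSpace.countable_countableBasis G)).2 h2
  · intro x hx
    rw [ContinuousWithinAt, (TopologicalSpace.isBasis_countableBasis G).nhds_hasBasis.tendsto_right_iff]
    rintro b ⟨hb, hxb⟩
    have h3 : u b ∈ 𝓝 x := (hu b hb).mem_nhds ((hx b hb).1 hxb)
    filter_upwards [mem_nhdsWithin_of_mem_nhds h3, self_mem_nhdsWithin] with y hy1 hy2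
    exact (hy2 b hb).2 hy1

end Bp

end Pool.Agent.NH40.CJ
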