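import Pool.Agent.NH40.CJ.Stm
import Pool.Agent.NH40.CJ.Bp

/-!
# Project CJ: a comeagre relation with meagre classes does not reduce to conjugacy in a group with a
# two sided invariant metric
-/

set_option autoImplicit false
set_option linter.unusedSectionVars false

namespace Pool.Agent.NH40.CJ

open Set Topology Filter MeasureTheory

namespace Abs

/-! ### Groups with a two sided invariant metric -/

section grp

variable {G : Type*} [Group G] [MetricSpace G]

lemma dist_inv_inv (hG : Tsi G) (a b : G) : dist a⁻¹ b⁻¹ = dist a b := by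
  have h1 : dist a⁻¹ b⁻¹ = dist 1 (a * b⁻¹) := by
    rw [← hG.left a, mul_inv_cancel]
  rw [h1, ← hG.right b, one_mul, mul_assoc, inv_mul_cancel, mul_one, dist_comm]

lemma topGroup (hG : Tsi G) : IsTopologicalGroup G where
  continuous_mul := by
    rw [Metric.continuous_iff]
    rintro ⟨a, b⟩ ε hε
    refine ⟨ε / 2, by positivity, ?_⟩
    rintro ⟨c, d⟩ hcd
    rw [Prod.dist_eq, max_lt_iff] at hcd
    calc dist (c * d) (a * b) ≤ dist (c * d) (a * d) + dist (a * d) (a * b) := dist_triangle _ _ _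
      _ = dist c a + dist d b := by rw [hG.right, hG.left]
      _ < ε := by
        have := hcd.1; have := hcd.2
        simp only at *
        linarith
  continuous_inv := by
    rw [Metric.continuous_iff]
    intro a ε hε
    exact ⟨ε, hε, fun b hb => by rwa [dist_inv_inv hG]⟩

end grp

variable {X : Type*} [TopologicalSpace X] {G : Type*} [Group G] [MetricSpace G]

/-- the pairs with values conjugate by an element near `g0` -/
def ZZ (f : X → G) (g0 : G) (ε : ℝ) : Set (X × X) :=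
  {p | ∃ g, dist g g0 ≤ ε ∧ g * f p.1 = f p.2 * g}

lemma residual_prod {C : Set X} (hC : C ∈ residual X) :
    {p : X × X | p.1 ∈ C ∧ p.2 ∈ C} ∈ residual (X × X) := by
  have h1 := tendsto_residual_of_isOpenMap (continuous_fst (X := X) (Y := X)) isOpenMap_fst hC
  have h2 := tendsto_residual_of_isOpenMap (continuous_snd (X := X) (Y := X)) isOpenMap_snd hC
  exact Filter.inter_mem h1 h2

lemma ZZ_bp (hG : Tsi G) {f : X → G} {C : Set X} (hC : C ∈ residual X) (hf : ContinuousOn f C)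
    (g0 : G) (ε : ℝ) : ∃ U : Set (X × X), IsOpen U ∧ IsMeagre (ZZ f g0 ε \ U) ∧
      IsMeagre (U \ ZZ f g0 ε) := by
  have := topGroup hG
  have := hG.complete
  have := hG.second
  obtain ⟨φ, hφc, hφs⟩ := exists_nat_nat_continuous_surjective_of_completeSpace G
  set R : Set ((X × X) × (ℕ → ℕ)) :=
    {q | dist (φ q.2) g0 ≤ ε ∧ φ q.2 * f q.1.1 = f q.1.2 * φ q.2} with hR
  have hZ : ZZ f g0 ε = {w | ∃ z, (w, z) ∈ R} := by
    ext p
    constructor
    · rintro ⟨g, h1, h2⟩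
      obtain ⟨z, rfl⟩ := hφs g
      exact ⟨z, h1, h2⟩
    · rintro ⟨z, h1, h2⟩
      exact ⟨φ z, h1, h2⟩
  rw [hZ]
  refine Bp.proj_bp _ (residual_prod hC) R ?_
  rintro w ⟨hw1, hw2⟩ z hwz
  set D : Set ((X × X) × (ℕ → ℕ)) := {p | p ∈ R ∧ p.1 ∈ {p : X × X | p.1 ∈ C ∧ p.2 ∈ C}} with hD
  rw [mem_closure_iff_nhdsWithin_neBot] at hwz
  have hc1 : Tendsto (fun q : (X × X) × (ℕ → ℕ) => f q.1.1) (𝓝[D] (w, z)) (𝓝 (f w.1)) := by
    refine (hf w.1 hw1).tendsto.comp ?_
    refine tendsto_nhdsWithin_of_tendsto_nhds_of_eventually_within _ ?_ ?_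
    · exact ((continuous_fst.comp continuous_fst).tendsto (w, z)).mono_left nhdsWithin_le_nhds
    · filter_upwards [self_mem_nhdsWithin] with q hq using hq.2.1
  have hc2 : Tendsto (fun q : (X × X) × (ℕ → ℕ) => f q.1.2) (𝓝[D] (w, z)) (𝓝 (f w.2)) := by
    refine (hf w.2 hw2).tendsto.comp ?_
    refine tendsto_nhdsWithin_of_tendsto_nhds_of_eventually_within _ ?_ ?_
    · exact ((continuous_snd.comp continuous_fst).tendsto (w, z)).mono_left nhdsWithin_le_nhds
    · filter_upwards [self_mem_nhdsWithin] with q hq using hq.2.2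
  have hc3 : Tendsto (fun q : (X × X) × (ℕ → ℕ) => φ q.2) (𝓝[D] (w, z)) (𝓝 (φ z)) :=
    ((hφc.comp continuous_snd).tendsto (w, z)).mono_left nhdsWithin_le_nhds
  refine ⟨?_, ?_⟩
  · refine le_of_tendsto (hc3.dist tendsto_const_nhds) ?_
    filter_upwards [self_mem_nhdsWithin] with q hq using hq.1.1
  · refine tendsto_nhds_unique (hc3.mul hc1) ((hc2.mul hc3).congr' ?_)
    filter_upwards [self_mem_nhdsWithin] with q hq using hq.1.2.symm

/-- the first step: homogeneous open sets -/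
lemma step [TopologicalSpace.IsCompletelyMetrizableSpace X] (hG : Tsi G) {f : X → G} {C : Set X}
    (hC : C ∈ residual X) (hf : ContinuousOn f C) {E : X → X → Prop}
    (hE : {p : X × X | E p.1 p.2} ∈ residual (X × X))
    (hEf : ∀ x y, E x y → ∃ g, f y = g * f x * g⁻¹) {O : Set X} (hO : IsOpen O) (hne : O.Nonempty)
    {ε : ℝ} (hε : 0 < ε) :
    ∃ V ⊆ O, IsOpen V ∧ V.Nonempty ∧ IsMeagre ((V ×ˢ V) \ ZZ f 1 ε) := by
  have := topGroup hG
  have := hG.second
  have hcov : O ×ˢ O ⊆ {p : X × X | E p.1 p.2}ᶜ ∪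
      ⋃ n, (ZZ f (TopologicalSpace.denseSeq G n) (ε / 2) ∩ (O ×ˢ O)) := by
    intro p hp
    by_cases h : E p.1 p.2
    · right
      obtain ⟨g, hg⟩ := hEf _ _ h
      obtain ⟨n, hn⟩ := (TopologicalSpace.denseRange_denseSeq G).exists_dist_lt g (half_pos hε)
      refine mem_iUnion.2 ⟨n, ⟨g, hn.le, ?_⟩, hp⟩
      rw [hg]; group
    · exact Or.inl h
  have hOO : ¬ IsMeagre (O ×ˢ O) := not_isMeagre_of_isOpen (hO.prod hO) (hne.prod hne)
  obtain ⟨n, hn⟩ : ∃ n, ¬ IsMeagre (ZZ f (TopologicalSpace.denseSeq G n) (ε / 2) ∩ (O ×ˢ O)) := by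
    by_contra hcon
    push Not at hcon
    apply hOO
    refine IsMeagre.mono hcov (IsMeagre.union ?_ (isMeagre_iUnion hcon))
    rw [IsMeagre, compl_compl]
    exact hE
  set g0 := TopologicalSpace.denseSeq G n with hg0
  obtain ⟨U, hU, hU1, hU2⟩ := ZZ_bp hG hC hf g0 (ε / 2)
  obtain ⟨⟨a, b⟩, hab⟩ : (U ∩ (O ×ˢ O)).Nonempty := by
    by_contra hcon
    rw [not_nonempty_iff_eq_empty] at hcon
    apply hn
    refine hU1.mono ?_
    rintro p ⟨hp1, hp2⟩
    refine ⟨hp1, fun hpU => ?_⟩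
    have : p ∈ U ∩ (O ×ˢ O) := ⟨hpU, hp2⟩
    rw [hcon] at this
    exact this
  obtain ⟨V, V', hV, hV', haV, hbV', hVV⟩ := isOpen_prod_iff.1 (hU.inter (hO.prod hO)) a b hab
  have hVO : V ⊆ O := fun x hx => (hVV (show (x, b) ∈ V ×ˢ V' from ⟨hx, hbV'⟩)).2.1
  have hVm : IsMeagre ((V ×ˢ V') \ ZZ f g0 (ε / 2)) := by
    refine hU2.mono ?_
    rintro p ⟨hp1, hp2⟩
    exact ⟨(hVV hp1).1, hp2⟩
  refine ⟨V, hVO, hV, ⟨a, haV⟩, ?_⟩
  by_contra hcon
  obtain ⟨W, hW, hW1, hW2⟩ := ZZ_bp hG hC hf 1 ε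
  obtain ⟨⟨c, d⟩, hcd1, hcd2⟩ : ((V ×ˢ V) \ closure W).Nonempty := by
    by_contra h
    rw [not_nonempty_iff_eq_empty, sdiff_eq_empty] at h
    apply hcon
    refine IsMeagre.mono ?_ ((Bp.frontier_meagre hW).union hW2)
    rintro p ⟨hp1, hp2⟩
    by_cases hpW : p ∈ W
    · exact Or.inr ⟨hpW, hp2⟩
    · exact Or.inl ⟨h hp1, hpW⟩
  obtain ⟨A, B, hA, hB, hcA, hdB, hAB⟩ := isOpen_prod_iff.1
    ((hV.prod hV).inter isClosed_closure.isOpen_compl) c d ⟨hcd1, hcd2⟩
  have hABm : IsMeagre (ZZ f 1 ε ∩ (A ×ˢ B)) := by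
    refine hW1.mono ?_
    rintro p ⟨hp1, hp2⟩
    exact ⟨hp1, fun h => (hAB hp2).2 (subset_closure h)⟩
  -- three points
  have o13 : IsOpenMap (fun q : (X × X) × X => (q.1.1, q.2)) :=
    IsOpenMap.prodMap isOpenMap_fst IsOpenMap.id
  have c13 : Continuous (fun q : (X × X) × X => (q.1.1, q.2)) := by fun_prop
  have o23 : IsOpenMap (fun q : (X × X) × X => (q.1.2, q.2)) :=
    IsOpenMap.prodMap isOpenMap_snd IsOpenMap.id
  have c23 : Continuous (fun q : (X × X) × X => (q.1.2, q.2)) := by fun_prop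
  have m1 : IsMeagre ((Prod.fst : (X × X) × X → X × X) ⁻¹' (ZZ f 1 ε ∩ (A ×ˢ B))) :=
    hABm.preimage_of_isOpenMap continuous_fst isOpenMap_fst
  have m2 := hVm.preimage_of_isOpenMap c13 o13
  have m3 := hVm.preimage_of_isOpenMap c23 o23
  have hbig : ¬ IsMeagre ((A ×ˢ B) ×ˢ V' : Set ((X × X) × X)) :=
    not_isMeagre_of_isOpen ((hA.prod hB).prod hV') ⟨((c, d), b), ⟨hcA, hdB⟩, hbV'⟩
  obtain ⟨⟨⟨x, y⟩, z⟩, ⟨⟨hx, hy⟩, hz⟩, hxyz⟩ : (((A ×ˢ B) ×ˢ V' : Set ((X × X) × X)) \
      ((Prod.fst : (X × X) × X → X × X) ⁻¹' (ZZ f 1 ε ∩ (A ×ˢ B)) ∪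
        (fun q : (X × X) × X => (q.1.1, q.2)) ⁻¹' ((V ×ˢ V') \ ZZ f g0 (ε / 2)) ∪
        (fun q : (X × X) × X => (q.1.2, q.2)) ⁻¹' ((V ×ˢ V') \ ZZ f g0 (ε / 2)))).Nonempty := by
    by_contra h
    rw [not_nonempty_iff_eq_empty, sdiff_eq_empty] at h
    exact hbig (((m1.union m2).union m3).mono h)
  simp only [mem_union, mem_preimage, not_or] at hxyz
  obtain ⟨⟨h1, h2⟩, h3⟩ := hxyz
  have hxV : x ∈ V := (hAB (show (x, y) ∈ A ×ˢ B from ⟨hx, hy⟩)).1.1
  have hyV : y ∈ V := (hAB (show (x, y) ∈ A ×ˢ B from ⟨hx, hy⟩)).1.2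
  have h2' : (x, z) ∈ ZZ f g0 (ε / 2) := by
    by_contra h
    exact h2 ⟨⟨hxV, hz⟩, h⟩
  have h3' : (y, z) ∈ ZZ f g0 (ε / 2) := by
    by_contra h
    exact h3 ⟨⟨hyV, hz⟩, h⟩
  apply h1
  refine ⟨?_, hx, hy⟩
  obtain ⟨g1, hg1, e1⟩ := h2'
  obtain ⟨g2, hg2, e2⟩ := h3'
  simp only at e1 e2
  refine ⟨g2⁻¹ * g1, ?_, ?_⟩
  · rw [← hG.left g2, mul_inv_cancel_left, mul_one]
    calc dist g1 g2 ≤ dist g1 g0 + dist g0 g2 := dist_triangle _ _ _
      _ ≤ ε / 2 + ε / 2 := add_le_add hg1 (by rw [dist_comm]; exact hg2)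
      _ = ε := add_halves ε
  · show g2⁻¹ * g1 * f x = f y * (g2⁻¹ * g1)
    rw [mul_assoc, e1, ← mul_assoc, ← mul_assoc]
    congr 1
    rw [inv_mul_eq_iff_eq_mul, ← mul_assoc, e2, mul_assoc, mul_inv_cancel, mul_one]

/-- on a homogeneous open set the values are close -/
lemma dist_le [TopologicalSpace.IsCompletelyMetrizableSpace X] (hG : Tsi G) {f : X → G} {C : Set X}
    (hC : C ∈ residual X) (hf : ContinuousOn f C) {V : Set X} (hV : IsOpen V) {ε : ℝ}
    (hm : IsMeagre ((V ×ˢ V) \ ZZ f 1 ε)) {x y : X} (hx : x ∈ C ∩ V) (hy : y ∈ C ∩ V) :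
    dist (f x) (f y) ≤ 2 * ε := by
  set D : Set (X × X) := {p | p ∈ ZZ f 1 ε ∧ p.1 ∈ C ∧ p.2 ∈ C} with hD
  have hcl : (x, y) ∈ closure D := by
    rw [mem_closure_iff]
    intro O hO hxO
    have h1 : ¬ IsMeagre (O ∩ (V ×ˢ V)) :=
      not_isMeagre_of_isOpen (hO.inter (hV.prod hV)) ⟨(x, y), hxO, hx.2, hy.2⟩
    have h2 : IsMeagre {p : X × X | p.1 ∈ C ∧ p.2 ∈ C}ᶜ := by
      rw [IsMeagre, compl_compl]
      exact residual_prod hC
    by_contra hcon
    apply h1
    refine IsMeagre.mono ?_ (hm.union h2)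
    rintro p ⟨hp1, hp2⟩
    by_cases hpC : p ∈ {p : X × X | p.1 ∈ C ∧ p.2 ∈ C}
    · left
      exact ⟨hp2, fun h => hcon ⟨p, hp1, h, hpC⟩⟩
    · exact Or.inr hpC
  rw [mem_closure_iff_nhdsWithin_neBot] at hcl
  have hc1 : Tendsto (fun q : X × X => f q.1) (𝓝[D] (x, y)) (𝓝 (f x)) := by
    refine (hf x hx.1).tendsto.comp ?_
    refine tendsto_nhdsWithin_of_tendsto_nhds_of_eventually_within _ ?_ ?_
    · exact (continuous_fst.tendsto (x, y)).mono_left nhdsWithin_le_nhds
    · filter_upwards [self_mem_nhdsWithin] with q hq using hq.2.1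
  have hc2 : Tendsto (fun q : X × X => f q.2) (𝓝[D] (x, y)) (𝓝 (f y)) := by
    refine (hf y hy.1).tendsto.comp ?_
    refine tendsto_nhdsWithin_of_tendsto_nhds_of_eventually_within _ ?_ ?_
    · exact (continuous_snd.tendsto (x, y)).mono_left nhdsWithin_le_nhds
    · filter_upwards [self_mem_nhdsWithin] with q hq using hq.2.2
  refine le_of_tendsto (hc1.dist hc2) ?_
  filter_upwards [self_mem_nhdsWithin] with q hq
  obtain ⟨g, hg, e⟩ := hq.1
  calc dist (f q.1) (f q.2) ≤ dist (f q.1) (g * f q.1) + dist (g * f q.1) (f q.2) :=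
        dist_triangle _ _ _
    _ = dist g 1 + dist g 1 := by
        congr 1
        · rw [dist_comm, ← hG.right (f q.1) g 1, one_mul]
        · rw [e, ← hG.left (f q.2) g 1, mul_one]
    _ ≤ 2 * ε := by linarith

/-- **The abstract theorem.** -/
theorem main [TopologicalSpace.IsCompletelyMetrizableSpace X] [Nonempty X]
    (hb : ∀ U : Set X, IsOpen U → U.Nonempty → ∃ V ⊆ U, IsClopen V ∧ V.Nonempty)
    {E : X → X → Prop} (hE : {p : X × X | E p.1 p.2} ∈ residual (X × X))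
    (hEm : ∀ x : X, IsMeagre {y | E x y}) (hG : Tsi G) (f : X → G)
    (hf : Measurable[borel X, borel G] f) (h1 : ∀ x y, E x y → ∃ g, f y = g * f x * g⁻¹)
    (h2 : ∀ x y, (∃ g, f y = g * f x * g⁻¹) → E x y) : False := by
  have := topGroup hG
  have := hG.second
  have := hG.complete
  obtain ⟨C, hC, hfC⟩ := Bp.exists_contOn f hf
  -- the homogeneous sets
  have st : ∀ (n : ℕ) (O : {O : Set X // IsClopen O ∧ O.Nonempty}),
      ∃ V : {O : Set X // IsClopen O ∧ O.Nonempty}, (V : Set X) ⊆ O ∧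
        IsMeagre (((V : Set X) ×ˢ (V : Set X)) \ ZZ f 1 ((1 / 2) ^ n)) := by
    intro n O
    obtain ⟨V, hVO, hV, hVne, hVm⟩ := step hG hC hfC hE h1 O.2.1.isOpen O.2.2
      (ε := (1 / 2) ^ n) (by positivity)
    obtain ⟨V', hV'V, hV', hV'ne⟩ := hb V hV hVne
    refine ⟨⟨V', hV', hV'ne⟩, hV'V.trans hVO, hVm.mono ?_⟩
    rintro p ⟨⟨hp1, hp2⟩, hp3⟩
    exact ⟨⟨hV'V hp1, hV'V hp2⟩, hp3⟩
  choose F hF1 hF2 using st
  let V : ℕ → {O : Set X // IsClopen O ∧ O.Nonempty} := fun n =>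
    Nat.rec (F 0 ⟨univ, isClopen_univ, univ_nonempty⟩) (fun n O => F (n + 1) O) n
  have hVs : ∀ n, V (n + 1) = F (n + 1) (V n) := fun n => rfl
  have hVsub : ∀ n, (V (n + 1)).1 ⊆ (V n).1 := fun n => by rw [hVs]; exact hF1 _ _
  have hVm : ∀ n, IsMeagre (((V n).1 ×ˢ (V n).1) \ ZZ f 1 ((1 / 2) ^ n)) := by
    intro n
    cases n with
    | zero => exact hF2 0 _
    | succ n => rw [hVs]; exact hF2 _ _
  -- the limit of the values
  have hz : ∀ n, ∃ z, z ∈ C ∩ (V n).1 := by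
    intro n
    obtain ⟨z, hz1, hz2⟩ := (dense_of_mem_residual hC).inter_open_nonempty _ (V n).2.1.isOpen (V n).2.2
    exact ⟨z, hz2, hz1⟩
  choose z hz using hz
  have hcau : CauchySeq fun n => f (z n) := by
    refine cauchySeq_of_le_geometric (1 / 2) 2 (by norm_num) fun n => ?_
    exact dist_le hG hC hfC (V n).2.1.isOpen (hVm n) (hz n) ⟨(hz (n + 1)).1, hVsub n (hz (n + 1)).2⟩
  obtain ⟨y0, hy0⟩ := cauchySeq_tendsto_of_complete hcau
  -- the space of sequences
  let Q : Type _ := ∀ n : ℕ, (V n).1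
  have hcm : ∀ n, TopologicalSpace.IsCompletelyMetrizableSpace (V n).1 := fun n =>
    (V n).2.1.isClosed.isCompletelyMetrizableSpace
  have hQc : TopologicalSpace.IsCompletelyMetrizableSpace Q :=
    TopologicalSpace.IsCompletelyMetrizableSpace.pi_countable
  have hQb : BaireSpace Q := BaireSpace.of_completelyPseudoMetrizable
  have hQne : Nonempty Q := ⟨fun n => ⟨z n, (hz n).2⟩⟩
  have hev : ∀ n, Continuous (fun q : Q => ((q n : (V n).1) : X)) := fun n =>
    continuous_subtype_val.comp (continuous_apply n)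
  have hevo : ∀ n, IsOpenMap (fun q : Q => ((q n : (V n).1) : X)) := fun n =>
    (V n).2.1.isOpen.isOpenMap_subtype_val.comp (isOpenMap_eval n)
  have hpc : ∀ n, Continuous (fun q : Q => (((q n : (V n).1) : X),
      ((q (n + 1) : (V (n + 1)).1) : X))) := fun n => (hev n).prodMk (hev (n + 1))
  have hpo : ∀ n, IsOpenMap (fun q : Q => (((q n : (V n).1) : X),
      ((q (n + 1) : (V (n + 1)).1) : X))) := by
    intro n
    have o1 : IsOpenMap (fun q : Q => ((q n : (V n).1), (q (n + 1) : (V (n + 1)).1))) := by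
      apply IsOpenMap.of_sections
      intro q
      refine ⟨fun p => Function.update (Function.update q n p.1) (n + 1) p.2, ?_, ?_, ?_⟩
      · refine Continuous.continuousAt ?_
        refine continuous_pi fun m => ?_
        by_cases h3 : m = n + 1
        · subst h3
          simp only [Function.update_self]
          exact continuous_snd
        · by_cases h4 : m = n
          · subst h4
            simp only [Function.update_of_ne h3, Function.update_self]
            exact continuous_fst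
          · simp only [Function.update_of_ne h3, Function.update_of_ne h4]
            exact continuous_const
      · simp
      · intro p
        refine Prod.ext ?_ ?_
        · show Function.update (Function.update q n p.1) (n + 1) p.2 n = p.1
          rw [Function.update_of_ne (by omega), Function.update_self]
        · show Function.update (Function.update q n p.1) (n + 1) p.2 (n + 1) = p.2
          rw [Function.update_self]
    exact ((V n).2.1.isOpen.isOpenMap_subtype_val.prodMap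
      (V (n + 1)).2.1.isOpen.isOpenMap_subtype_val).comp o1
  have hres : ∀ᶠ q : Q in residual Q, ∃ h : G, h * f (q 0 : X) = y0 * h := by
    have r1 : ∀ᶠ q : Q in residual Q, ∀ n, ((q n : (V n).1) : X) ∈ C := by
      rw [eventually_countable_forall]
      exact fun n => tendsto_residual_of_isOpenMap (hev n) (hevo n) hC
    have r2 : ∀ᶠ q : Q in residual Q, ∀ n, ((((q n : (V n).1) : X),
        ((q (n + 1) : (V (n + 1)).1) : X)) : X × X) ∈ ZZ f 1 ((1 / 2) ^ n) := by
      rw [eventually_countable_forall]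
      intro n
      have h3 := (hVm n).preimage_of_isOpenMap (hpc n) (hpo n)
      filter_upwards [h3] with q hq
      by_contra hcon
      exact hq ⟨⟨(q n).2, hVsub n (q (n + 1)).2⟩, hcon⟩
    filter_upwards [r1, r2] with q hq1 hq2
    choose g hg1 hg2 using hq2
    simp only at hg2
    let k : ℕ → G := fun n => Nat.rec 1 (fun n h => g n * h) n
    have hk : ∀ n, k (n + 1) = g n * k n := fun n => rfl
    have hk1 : ∀ n, k n * f (q 0 : X) = f (q n : X) * k n := by
      intro n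
      induction n with
      | zero => show 1 * f (q 0 : X) = f (q 0 : X) * 1; rw [one_mul, mul_one]
      | succ n ih => rw [hk, mul_assoc, ih, ← mul_assoc, hg2, mul_assoc]
    have hk2 : CauchySeq k := by
      refine cauchySeq_of_le_geometric (1 / 2) 1 (by norm_num) fun n => ?_
      rw [hk, dist_comm]
      calc dist (g n * k n) (k n) = dist (g n * k n) (1 * k n) := by rw [one_mul]
        _ = dist (g n) 1 := hG.right _ _ _
        _ ≤ 1 * (1 / 2) ^ n := by rw [one_mul]; exact hg1 n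
    obtain ⟨k0, hk0⟩ := cauchySeq_tendsto_of_complete hk2
    have hfq : Tendsto (fun n => f (q n : X)) atTop (𝓝 y0) := by
      have h4 : Tendsto (fun n : ℕ => 2 * (1 / 2 : ℝ) ^ n) atTop (𝓝 0) := by
        have := (tendsto_pow_atTop_nhds_zero_of_lt_one (r := (1 / 2 : ℝ)) (by norm_num)
          (by norm_num)).const_mul 2
        rwa [mul_zero] at this
      refine hy0.congr_dist (squeeze_zero (fun _ => dist_nonneg) (fun n => ?_) h4)
      exact dist_le hG hC hfC (V n).2.1.isOpen (hVm n) (hz n) ⟨hq1 n, (q n).2⟩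
    refine ⟨k0, tendsto_nhds_unique (hk0.mul_const _) ?_⟩
    simp only [hk1]
    exact hfq.mul hk0
  obtain ⟨q, hq⟩ := (dense_of_mem_residual (X := Q) hres).nonempty
  have hcl : IsMeagre ((fun q : Q => ((q 0 : (V 0).1) : X)) ⁻¹' {y | E (q 0 : X) y}) :=
    (hEm _).preimage_of_isOpenMap (hev 0) (hevo 0)
  obtain ⟨q', hq'1, hq'2⟩ := (dense_of_mem_residual (X := Q) (Filter.inter_mem hres hcl)).nonempty
  apply hq'2
  show E (q 0 : X) (q' 0 : X)
  apply h2
  obtain ⟨a, ha⟩ := hq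
  obtain ⟨b, hb'⟩ := hq'1
  refine ⟨b⁻¹ * a, ?_⟩
  have ea : y0 = a * f (q 0 : X) * a⁻¹ := by rw [ha, mul_assoc, mul_inv_cancel, mul_one]
  have eb : f (q' 0 : X) = b⁻¹ * y0 * b := by
    rw [mul_assoc, ← hb', inv_mul_cancel_left]
  rw [eb, ea]
  group

end Abs

end Pool.Agent.NH40.CJ
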