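import Pool.Agent.Helper212.FullDefs

/-!
# The full group of an ergodic automorphism is complete
-/

open MeasureTheory Filter Topology

set_option autoImplicit false

namespace Pool.Agent.NH40.CJ

open Pool.Agent.Helper212.ConjBorel

namespace CplP

variable {X : Type*} [MeasurableSpace X] [StandardBorelSpace X] {μ : Measure X}
  [IsProbabilityMeasure μ] {T₀ : X ≃ᵐ X} {h : Ergodic T₀ μ}

/-- the points where the map or its inverse changes at step `n` -/
def bad (u : ℕ → PreFull h) (n : ℕ) : Set X :=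
  {x | (u n).1 x ≠ (u (n + 1)).1 x} ∪ {x | ((u n)⁻¹).1 x ≠ ((u (n + 1))⁻¹).1 x}

theorem meas_bad (u : ℕ → PreFull h) (n : ℕ) : MeasurableSet (bad u n) :=
  (PreFull.measurableSet_ne _ _).union (PreFull.measurableSet_ne _ _)

theorem small_bad (u : ℕ → PreFull h) (hu : ∀ n, dist (u n) (u (n + 1)) < (1 / 2 : ℝ) ^ n)
    (n : ℕ) : μ (bad u n) ≤ ENNReal.ofReal (2 * (1 / 2 : ℝ) ^ n) := by
  have h1 : μ {x | (u n).1 x ≠ (u (n + 1)).1 x} ≤ ENNReal.ofReal ((1 / 2 : ℝ) ^ n) := by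
    have h2 := (hu n).le
    rw [PreFull.dist_def, measureReal_def] at h2
    rw [← ENNReal.ofReal_toReal (measure_ne_top μ _)]
    exact ENNReal.ofReal_le_ofReal h2
  have h1' : μ {x | ((u n)⁻¹).1 x ≠ ((u (n + 1))⁻¹).1 x} ≤ ENNReal.ofReal ((1 / 2 : ℝ) ^ n) := by
    have h2 := (hu n).le
    rw [← PreFull.dist_inv_inv', PreFull.dist_def, measureReal_def] at h2
    rw [← ENNReal.ofReal_toReal (measure_ne_top μ _)]
    exact ENNReal.ofReal_le_ofReal h2
  calc μ (bad u n) ≤ _ := measure_union_le _ _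
    _ ≤ ENNReal.ofReal ((1 / 2 : ℝ) ^ n) + ENNReal.ofReal ((1 / 2 : ℝ) ^ n) := add_le_add h1 h1'
    _ = ENNReal.ofReal (2 * (1 / 2 : ℝ) ^ n) := by
      rw [← ENNReal.ofReal_add (by positivity) (by positivity), two_mul]

theorem sum_bad (u : ℕ → PreFull h) (hu : ∀ n, dist (u n) (u (n + 1)) < (1 / 2 : ℝ) ^ n) :
    ∑' n, μ (bad u n) ≠ ⊤ := by
  have h1 : Summable (fun n : ℕ => 2 * (1 / 2 : ℝ) ^ n) := summable_geometric_two.mul_left 2
  exact ne_top_of_le_ne_top h1.tsum_ofReal_ne_top (ENNReal.tsum_le_tsum (small_bad u hu))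

/-- the points whose whole orbit is eventually stable -/
def good (u : ℕ → PreFull h) : Set X :=
  {x | ∀ k : ℤ, ∀ᶠ n in atTop, tau T₀ k x ∉ bad u n}

theorem meas_good (u : ℕ → PreFull h) : MeasurableSet (good u) := by
  have h1 : MeasurableSet {x | ∀ᶠ n in atTop, x ∉ bad u n} := by
    have e : {x | ∀ᶠ n in atTop, x ∉ bad u n} = ⋃ N : ℕ, ⋂ n : ℕ, ⋂ _ : N ≤ n, (bad u n)ᶜ := by
      ext x
      simp [eventually_atTop]
    rw [e]
    exact MeasurableSet.iUnion fun N => MeasurableSet.iInter fun n =>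
      MeasurableSet.iInter fun _ => (meas_bad u n).compl
  have e : good u = ⋂ k : ℤ, (tau T₀ k) ⁻¹' {x | ∀ᶠ n in atTop, x ∉ bad u n} := by
    ext x
    simp [good]
  rw [e]
  exact MeasurableSet.iInter fun k => h1.preimage (measurable_tau T₀ k)

theorem ae_good (u : ℕ → PreFull h) (hu : ∀ n, dist (u n) (u (n + 1)) < (1 / 2 : ℝ) ^ n) :
    ∀ᵐ x ∂μ, x ∈ good u := by
  have h1 : ∀ᵐ x ∂μ, ∀ᶠ n in atTop, x ∉ bad u n := ae_eventually_notMem (sum_bad u hu)
  have h2 : ∀ k : ℤ, ∀ᵐ x ∂μ, ∀ᶠ n in atTop, tau T₀ k x ∉ bad u n :=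
    fun k => (mp_tau h k).quasiMeasurePreserving.ae h1
  exact ae_all_iff.2 h2

theorem good_orb (u : ℕ → PreFull h) {x y : X} (hx : x ∈ good u) (hy : y ∈ orb T₀ x) :
    y ∈ good u := by
  obtain ⟨m, rfl⟩ := hy
  intro k
  have h1 := hx (k + m)
  simp only [tau_add] at h1
  exact h1

theorem stab {u : ℕ → PreFull h} {x : X} {N : ℕ} (hN : ∀ n, N ≤ n → x ∉ bad u n) :
    ∀ n, N ≤ n → (u n).1 x = (u N).1 x ∧ ((u n)⁻¹).1 x = ((u N)⁻¹).1 x := by
  intro n hn
  induction n, hn using Nat.le_induction with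
  | base => exact ⟨rfl, rfl⟩
  | succ n hn ih =>
    have h1 := hN n hn
    simp only [bad, Set.mem_union, Set.mem_ofPred_eq, not_or, not_not] at h1
    exact ⟨h1.1.symm.trans ih.1, h1.2.symm.trans ih.2⟩

/-- an eventually constant sequence of maps has a measurable limit -/
theorem lim_map {G : Set X} (hG : MeasurableSet G) (f : ℕ → X → X) (hf : ∀ n, Measurable (f n))
    (B : ℕ → Set X) (hB : ∀ n, MeasurableSet (B n)) (hst : ∀ x ∈ G, ∃ N, ∀ n, N ≤ n → x ∉ B n)
    (hs : ∀ x N, (∀ n, N ≤ n → x ∉ B n) → ∀ n, N ≤ n → f n x = f N x) :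
    ∃ S : X → X, Measurable S ∧ (∀ x, x ∉ G → S x = x) ∧
      ∀ x ∈ G, ∀ᶠ n in atTop, f n x = S x := by
  classical
  have hp : ∀ x, ∃ N, x ∈ G → ∀ n, N ≤ n → x ∉ B n := by
    intro x
    by_cases hx : x ∈ G
    · obtain ⟨N, hN⟩ := hst x hx
      exact ⟨N, fun _ => hN⟩
    · exact ⟨0, fun h => absurd h hx⟩
  refine ⟨fun x => (fun N x => if x ∈ G then f N x else x) (Nat.find (hp x)) x, ?_, ?_, ?_⟩
  · refine Measurable.find (f := fun N x => if x ∈ G then f N x else x)
      (p := fun N x => x ∈ G → ∀ n, N ≤ n → x ∉ B n) ?_ ?_ hp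
    · intro N
      exact Measurable.ite hG (hf N) measurable_id
    · intro N
      have e : {x | x ∈ G → ∀ n, N ≤ n → x ∉ B n} = Gᶜ ∪ ⋂ n : ℕ, ⋂ _ : N ≤ n, (B n)ᶜ := by
        ext x
        simp only [Set.mem_ofPred_eq, Set.mem_union, Set.mem_compl_iff, Set.mem_iInter]
        tauto
      rw [e]
      exact hG.compl.union (MeasurableSet.iInter fun n => MeasurableSet.iInter fun _ => (hB n).compl)
  · intro x hx
    simp only [if_neg hx]
  · intro x hx
    simp only [if_pos hx]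
    have h1 := Nat.find_spec (hp x) hx
    filter_upwards [eventually_ge_atTop (Nat.find (hp x))] with n hn
    exact hs x _ h1 n hn

theorem conv (u : ℕ → PreFull h) (hu : ∀ n, dist (u n) (u (n + 1)) < (1 / 2 : ℝ) ^ n) :
    ∃ S : PreFull h, Tendsto u atTop (𝓝 S) := by
  have hst : ∀ x ∈ good u, ∃ N, ∀ n, N ≤ n → x ∉ bad u n := by
    intro x hx
    have h1 := hx 0
    simp only [tau_zero] at h1
    exact eventually_atTop.1 h1
  obtain ⟨S, hS1, hS2, hS3⟩ := lim_map (meas_good u) (fun n => (u n).1)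
    (fun n => (u n).measurable) (bad u) (meas_bad u) hst
    (fun x N hN n hn => (stab hN n hn).1)
  obtain ⟨V, hV1, hV2, hV3⟩ := lim_map (meas_good u) (fun n => ((u n)⁻¹).1)
    (fun n => ((u n)⁻¹).measurable) (bad u) (meas_bad u) hst
    (fun x N hN n hn => (stab hN n hn).2)
  have hSo : ∀ x, S x ∈ orb T₀ x := by
    intro x
    by_cases hx : x ∈ good u
    · obtain ⟨n, hn⟩ := (hS3 x hx).exists
      rw [← hn]
      exact (u n).mem_orb x
    · rw [hS2 x hx]
      exact mem_orb_self x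
  have hVo : ∀ x, V x ∈ orb T₀ x := by
    intro x
    by_cases hx : x ∈ good u
    · obtain ⟨n, hn⟩ := (hV3 x hx).exists
      rw [← hn]
      exact ((u n)⁻¹).mem_orb x
    · rw [hV2 x hx]
      exact mem_orb_self x
  have hVS : ∀ x, V (S x) = x := by
    intro x
    by_cases hx : x ∈ good u
    · have hy : S x ∈ good u := good_orb u hx (hSo x)
      obtain ⟨n, hn1, hn2⟩ := ((hS3 x hx).and (hV3 _ hy)).exists
      rw [← hn2, ← hn1]
      simp
    · rw [hS2 x hx, hV2 x hx]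
  have hSV : ∀ x, S (V x) = x := by
    intro x
    by_cases hx : x ∈ good u
    · have hy : V x ∈ good u := good_orb u hx (hVo x)
      obtain ⟨n, hn1, hn2⟩ := ((hV3 x hx).and (hS3 _ hy)).exists
      rw [← hn2, ← hn1]
      simp
    · rw [hV2 x hx, hS2 x hx]
  let e : Equiv.Perm X := ⟨S, V, hVS, hSV⟩
  have he : e ∈ fullSubgroup T₀ := by
    refine ⟨hS1, hV1, fun x => ?_⟩
    obtain ⟨n, hn⟩ := hSo x
    exact ⟨n, hn.symm⟩
  let R : PreFull h := ⟨e, he⟩
  refine ⟨R, ?_⟩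
  rw [tendsto_iff_dist_tendsto_zero]
  have hlim : Tendsto (fun n => μ {x | (u n).1 x ≠ R.1 x}) atTop (𝓝 (μ ∅)) := by
    refine tendsto_measure_of_ae_tendsto_indicator_of_isFiniteMeasure atTop MeasurableSet.empty
      (fun n => PreFull.measurableSet_ne (u n) R) ?_
    filter_upwards [ae_good u hu] with x hx
    filter_upwards [hS3 x hx] with n hn
    constructor
    · intro h1
      exact absurd hn h1
    · intro h1
      exact absurd h1 (Set.notMem_empty x)
  rw [measure_empty] at hlim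
  have h3 := (ENNReal.tendsto_toReal ENNReal.zero_ne_top).comp hlim
  rw [ENNReal.toReal_zero] at h3
  exact h3

end CplP

theorem t_CPL {X : Type*} [MeasurableSpace X] [StandardBorelSpace X] {μ : Measure X}
    [IsProbabilityMeasure μ] {T₀ : X ≃ᵐ X} (h : Ergodic T₀ μ) :
    CompleteSpace (Pool.Agent.Helper212.ConjBorel.FullGroup h) := by
  have hc : CompleteSpace (PreFull h) := by
    refine Metric.complete_of_convergent_controlled_sequences (fun n => (1 / 2 : ℝ) ^ n)
      (by intro n; positivity) ?_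
    intro u hu
    exact CplP.conv u (fun n => hu n n (n + 1) le_rfl (Nat.le_succ n))
  exact SeparationQuotient.instCompleteSpace

end Pool.Agent.NH40.CJ
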