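import Pool.Agent.NH40.CJ.Stm

/-!
# CJ-2: the rotations of the infinite dimensional torus
-/

set_option autoImplicit false

open MeasureTheory Filter Topology

namespace Pool.Agent.NH40.CJ

namespace ErgP

instance prob : IsProbabilityMeasure nu := by
  refine ⟨?_⟩
  have h := Measure.addHaarMeasure_self (K₀ := (⊤ : TopologicalSpace.PositiveCompacts TT))
  simpa [nu] using h

instance haar : nu.IsAddHaarMeasure := by
  unfold nu
  infer_instance

instance nontriv : Nontrivial TT := by
  have h1 : Nontrivial UnitAddCircle := by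
    refine ⟨⟨((1 / 2 : ℝ) : UnitAddCircle), 0, fun h => ?_⟩⟩
    obtain ⟨n, hn⟩ := (AddCircle.coe_eq_zero_iff (1 : ℝ)).1 h
    have h2 : (n : ℝ) * 2 = 1 := by
      have h3 : (n : ℝ) = 1 / 2 := by simpa using hn
      rw [h3]; norm_num
    have h3 : n * 2 = 1 := by exact_mod_cast h2
    omega
  infer_instance

instance nebot : (𝓝[≠] (0 : TT)).NeBot := by
  infer_instance

lemma natoms : NullSingletonClass nu := by
  infer_instance

lemma mp (θ : TT) : MeasurePreserving (rot θ) nu nu :=
  measurePreserving_add_left nu θ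

/-- the multiples of `a ∘ x` are dense -/
lemma dense {I : Type} {a : I → UnitAddCircle} (ha : Ind a) (x : ℕ → I) (hx : Function.Injective x) :
    DenseRange (fun n : ℤ => n • (a ∘ x : TT)) := by
  set H : AddSubgroup TT := (AddSubgroup.zmultiples (a ∘ x : TT)).topologicalClosure with hH
  have h1 : ∀ (k : ℕ) (t : UnitAddCircle), (Pi.single k t : TT) ∈ H := by
    intro k t
    obtain ⟨n, hn1, hn2⟩ := ha.app (x '' {j | j ≠ k}) ((Set.to_countable _).image x) (x k) (by
      rintro ⟨j, hj, hjk⟩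
      exact hj (hx hjk)) t
    have h2 : Tendsto (fun l => n l • (a ∘ x : TT)) atTop (𝓝 (Pi.single k t)) := by
      rw [tendsto_pi_nhds]
      intro j
      by_cases hj : j = k
      · subst hj
        rw [Pi.single_eq_same]
        exact hn2
      · rw [Pi.single_eq_of_ne hj]
        exact hn1 _ ⟨j, hj, rfl⟩
    refine mem_closure_of_tendsto h2 (Eventually.of_forall fun l => ?_)
    exact AddSubgroup.mem_zmultiples_iff.2 ⟨n l, rfl⟩
  have h2 : ∀ z : TT, z ∈ H := by
    intro z
    have h3 : Tendsto (fun N : ℕ => ∑ j ∈ Finset.range N, (Pi.single j (z j) : TT)) atTop (𝓝 z) := by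
      rw [tendsto_pi_nhds]
      intro j
      refine tendsto_const_nhds.congr' ?_
      filter_upwards [eventually_gt_atTop j] with N hN
      rw [Finset.sum_apply, Finset.sum_eq_single j]
      · rw [Pi.single_eq_same]
      · intro i _ hij
        rw [Pi.single_eq_of_ne (Ne.symm hij)]
      · intro h
        exact absurd (Finset.mem_range.2 hN) h
    have h4 : IsClosed (H : Set TT) := AddSubgroup.isClosed_topologicalClosure _
    exact h4.mem_of_tendsto h3 (Eventually.of_forall fun N => H.sum_mem fun j _ => h1 j _)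
  intro z
  have h5 := h2 z
  rw [hH, ← SetLike.mem_coe, AddSubgroup.topologicalClosure_coe] at h5
  refine closure_mono ?_ h5
  intro w hw
  obtain ⟨k, hk⟩ := AddSubgroup.mem_zmultiples_iff.1 hw
  exact ⟨k, hk⟩

lemma erg {I : Type} {a : I → UnitAddCircle} (ha : Ind a) (x : ℕ → I) (hx : Function.Injective x) :
    Ergodic (rot (a ∘ x)) nu :=
  ergodic_add_left_of_denseRange_zsmul (dense ha x hx) nu

lemma cont (A B : Set TT) (hA : MeasurableSet A) (hB : MeasurableSet B) :
    Continuous fun θ : TT => nu.real ((rot θ) ⁻¹' A ∩ B) := by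
  rw [continuous_iff_continuousAt]
  intro θ₀
  let F : C(TT × TT, TT) := ⟨fun p => p.1 + p.2, continuous_add⟩
  have h1 : Tendsto (fun θ : TT => F.curry θ) (𝓝 θ₀) (𝓝 (F.curry θ₀)) :=
    F.curry.continuous.tendsto θ₀
  have hmp : ∀ θ : TT, MeasurePreserving (F.curry θ) nu nu := fun θ => mp θ
  have h2 := tendsto_measure_symmDiff_preimage_nhds_zero h1 (Eventually.of_forall hmp) (hmp θ₀)
    hA.nullMeasurableSet (measure_ne_top nu A)
  have h3 : Tendsto (fun θ => nu.real (symmDiff ((rot θ) ⁻¹' A) ((rot θ₀) ⁻¹' A))) (𝓝 θ₀) (𝓝 0) := by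
    have h4 := (ENNReal.tendsto_toReal (ENNReal.zero_ne_top)).comp h2
    rw [ENNReal.toReal_zero] at h4
    exact h4
  rw [ContinuousAt, tendsto_iff_dist_tendsto_zero]
  refine squeeze_zero (fun _ => dist_nonneg) (fun θ => ?_) h3
  have m1 : ∀ θ : TT, MeasurableSet ((rot θ) ⁻¹' A) := fun θ => (rot θ).measurable hA
  rw [Real.dist_eq]
  refine (abs_measureReal_sub_le_measureReal_symmDiff
    ((m1 θ).inter hB).nullMeasurableSet ((m1 θ₀).inter hB).nullMeasurableSet).trans ?_
  refine measureReal_mono ?_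
  intro z hz
  rw [Set.mem_symmDiff] at hz ⊢
  rcases hz with ⟨h1, h2⟩ | ⟨h1, h2⟩
  · exact Or.inl ⟨h1.1, fun h3 => h2 ⟨h3, h1.2⟩⟩
  · exact Or.inr ⟨h1.1, fun h3 => h2 ⟨h3, h1.2⟩⟩

end ErgP

theorem t_ERG : S_ERG :=
  ⟨ErgP.prob, ErgP.natoms, ErgP.mp, fun ha x hx => ErgP.erg ha x hx, fun A B hA hB =>
    ErgP.cont A B hA hB⟩

end Pool.Agent.NH40.CJ

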