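import Mathlib

/-!
# Project CJ (helper40): conjugacy of the ergodic elements of Aut(X, mu) does not Borel reduce to
# conjugacy in a full group

MP_1b52a3_lc, second question. Statements of the parts.

Idea. For an injective sequence `x` of indices in an uncountable set `I` let `R_x` be the rotation of
`T^ℕ` by `a ∘ x`, where `a : I → T` is independent (`Ind`). `R_x` is ergodic and `R_x`, `R_y` are
conjugate iff `range x = range y`. The set of injective sequences with the product of the discrete
topologies is completely metrizable (not separable), and `range x = range y` for comeagre many pairs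
`(x, y)`. A category argument shows that this relation does not reduce to the conjugacy in a group
with a complete separable two sided invariant metric.
-/

set_option autoImplicit false

open MeasureTheory Filter Topology

namespace Pool.Agent.NH40.CJ

/-! ### The abstract part -/

/-- a separable group with a complete two sided invariant metric -/
structure Tsi (G : Type*) [Group G] [MetricSpace G] : Prop where
  complete : CompleteSpace G
  second : SecondCountableTopology G
  left : ∀ g a b : G, dist (g * a) (g * b) = dist a b
  right : ∀ g a b : G, dist (a * g) (b * g) = dist a b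

/-! ### Independent families -/

/-- the independent families in the circle -/
structure Ind {I : Type} (a : I → UnitAddCircle) : Prop where
  unc : Uncountable I
  app : ∀ B : Set I, B.Countable → ∀ i ∉ B, ∀ t : UnitAddCircle, ∃ n : ℕ → ℤ,
    (∀ b ∈ B, Tendsto (fun l => n l • a b) atTop (𝓝 0)) ∧
      Tendsto (fun l => n l • a i) atTop (𝓝 t)

/-- CJ-1: existence of independent families -/
def S_IND : Prop := ∃ (I : Type) (a : I → UnitAddCircle), Ind a

/-! ### The rotations -/

/-- the infinite dimensional torus -/
abbrev TT : Type := ℕ → UnitAddCircle

/-- the Haar probability measure -/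
noncomputable def nu : Measure TT := Measure.addHaarMeasure ⊤

/-- the rotation by `θ` -/
noncomputable def rot (θ : TT) : TT ≃ᵐ TT := (Homeomorph.addLeft θ).toMeasurableEquiv

lemma rot_apply (θ z : TT) : rot θ z = θ + z := rfl

/-- CJ-2: the rotations are ergodic -/
def S_ERG : Prop := IsProbabilityMeasure nu ∧ NullSingletonClass nu ∧
  (∀ θ : TT, MeasurePreserving (rot θ) nu nu) ∧
  (∀ {I : Type} {a : I → UnitAddCircle}, Ind a → ∀ x : ℕ → I, Function.Injective x →
    Ergodic (rot (a ∘ x)) nu) ∧
  ∀ A B : Set TT, MeasurableSet A → MeasurableSet B →
    Continuous fun θ : TT => nu.real ((rot θ) ⁻¹' A ∩ B)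

/-- CJ-3: the invariant -/
def S_INV : Prop := ∀ {I : Type} {a : I → UnitAddCircle}, Ind a → ∀ x y : ℕ → I,
  (∃ U : TT → TT, MeasurePreserving U nu nu ∧
    ∀ᵐ z ∂nu, U (rot (a ∘ x) z) = rot (a ∘ y) (U z)) → Set.range y ⊆ Set.range x

/-- CJ-3: the conjugacy -/
def S_PER : Prop := ∀ {I : Type} (a : I → UnitAddCircle) (x y : ℕ → I), Function.Injective x →
  Function.Injective y → Set.range x = Set.range y →
  ∃ U : TT ≃ᵐ TT, MeasurePreserving U nu nu ∧ ∀ z, U (rot (a ∘ x) z) = rot (a ∘ y) (U z)

end Pool.Agent.NH40.CJ
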