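import Mathlib
import Pool.Agent.NH40.CJ.Stm
import Pool.Agent.TH574.PZ.Kron

/-!
# Project CJ: uncountable independent families in the circle
-/

set_option autoImplicit false

open MeasureTheory Filter Topology

namespace Pool.Agent.NH40.CJ

namespace IndP

/-- a rational basis of the reals -/
noncomputable abbrev bb : Module.Basis (Module.Basis.ofVectorSpaceIndex ℚ ℝ) ℚ ℝ :=
  Module.Basis.ofVectorSpace ℚ ℝ

/-- the index set -/
noncomputable abbrev FF : Finset (Module.Basis.ofVectorSpaceIndex ℚ ℝ) := (bb.repr 1).support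

theorem unc_index : Uncountable (Module.Basis.ofVectorSpaceIndex ℚ ℝ) := by
  rw [← Cardinal.aleph0_lt_mk_iff, bb.mk_eq_rank'', Real.rank_rat_real]
  exact Cardinal.aleph0_lt_continuum

theorem unc_sub : Uncountable {j : Module.Basis.ofVectorSpaceIndex ℚ ℝ // j ∉ FF} := by
  by_contra hc
  rw [not_uncountable_iff] at hc
  have h1 : {j : Module.Basis.ofVectorSpaceIndex ℚ ℝ | j ∉ FF}.Countable := hc
  have h2 : (FF : Set (Module.Basis.ofVectorSpaceIndex ℚ ℝ)).Countable :=
    FF.finite_toSet.countable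
  have h3 : (Set.univ : Set (Module.Basis.ofVectorSpaceIndex ℚ ℝ)).Countable := by
    refine (h1.union h2).mono ?_
    intro x _
    by_cases hx : x ∈ FF
    · exact Or.inr hx
    · exact Or.inl hx
  have := unc_index
  rw [Set.countable_univ_iff] at h3
  exact (not_countable_iff.mpr this) h3

open Classical in
theorem indep {J : Type} [Fintype J] (e : J → Module.Basis.ofVectorSpaceIndex ℚ ℝ)
    (he : Function.Injective e) (hF : ∀ j, e j ∉ FF) (k : J → ℤ)
    (h : ∑ j, k j • ((bb (e j) : ℝ) : UnitAddCircle) = 0) : ∀ j, k j = 0 := by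
  have h1 : ((∑ j, (k j : ℝ) * bb (e j) : ℝ) : UnitAddCircle) = 0 := by
    rw [← h]
    have h0 : ∀ j, k j • ((bb (e j) : ℝ) : UnitAddCircle)
        = (((k j : ℝ) * bb (e j) : ℝ) : UnitAddCircle) := by
      intro j
      rw [← AddCircle.coe_zsmul, zsmul_eq_mul]
    rw [Finset.sum_congr rfl (fun j _ => h0 j)]
    exact map_sum (QuotientAddGroup.mk' (AddSubgroup.zmultiples (1 : ℝ)))
      (fun j => (k j : ℝ) * bb (e j)) Finset.univ
  rw [AddCircle.coe_eq_zero_iff] at h1
  obtain ⟨m, hm⟩ := h1
  intro j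
  have h2 : (bb.repr (∑ j, (k j : ℝ) * bb (e j))) (e j) = (k j : ℚ) := by
    have h3 : (∑ j, (k j : ℝ) * bb (e j)) = ∑ j, (k j : ℚ) • bb (e j) := by
      refine Finset.sum_congr rfl ?_
      intro i _
      rw [Rat.smul_def]
      push_cast
      rfl
    rw [h3, map_sum, Finsupp.finsetSum_apply]
    have h4 : ∀ i, (bb.repr ((k i : ℚ) • bb (e i))) (e j) = if i = j then (k j : ℚ) else 0 := by
      intro i
      rw [map_smul, Module.Basis.repr_self, Finsupp.smul_apply, Finsupp.single_apply]
      by_cases hij : i = j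
      · rw [if_pos hij, if_pos (by rw [hij])]
        rw [hij]
        simp
      · rw [if_neg hij, if_neg (fun h' => hij (he h'))]
        simp
    rw [Finset.sum_congr rfl (fun i _ => h4 i)]
    simp
  rw [← hm] at h2
  have h5 : (bb.repr (m • (1 : ℝ))) (e j) = 0 := by
    rw [map_zsmul, Finsupp.smul_apply]
    have := hF j
    rw [Finsupp.notMem_support_iff] at this
    rw [this, smul_zero]
  rw [h5] at h2
  exact_mod_cast h2.symm

/-- the index type -/
abbrev I : Type := {j : Module.Basis.ofVectorSpaceIndex ℚ ℝ // j ∉ FF}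

/-- the family -/
noncomputable def a (j : I) : UnitAddCircle := ((bb j.1 : ℝ) : UnitAddCircle)

end IndP

open IndP in
theorem t_IND : S_IND := by
  classical
  refine ⟨I, a, IndP.unc_sub, ?_⟩
  intro B hB i hi t
  have hunc : Uncountable I := IndP.unc_sub
  obtain ⟨j0, hj0⟩ : ∃ j0 : I, j0 ≠ i := exists_ne i
  obtain ⟨e, he⟩ := (hB.insert j0).exists_eq_range ⟨j0, Set.mem_insert _ _⟩
  have hie : ∀ m, e m ≠ i := by
    intro m hm
    have : e m ∈ insert j0 B := by rw [he]; exact Set.mem_range_self m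
    rcases this with h | h
    · exact hj0 (h.symm.trans hm)
    · exact hi (hm ▸ h)
  have key : ∀ l : ℕ, ∃ n : ℤ, dist (n • a i) t < 1 / ((l : ℝ) + 1) ∧
      ∀ m ≤ l, dist (n • a (e m)) 0 < 1 / ((l : ℝ) + 1) := by
    intro l
    let S : Finset I := insert i ((Finset.range (l + 1)).image e)
    have hpos : (0 : ℝ) < 1 / ((l : ℝ) + 1) := by positivity
    obtain ⟨n, hn⟩ := Pool.Agent.TH574.PZ.kronecker (I := S) (fun x => a x.1)
      (fun x => if x.1 = i then t else 0) (by
        intro k hk
        have := IndP.indep (J := S) (fun x => x.1.1)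
          (fun x y hxy => Subtype.ext (Subtype.ext hxy)) (fun x => x.1.2) k hk
        simp [this]) _ hpos
    refine ⟨n, ?_, ?_⟩
    · have h1 := dist_le_pi_dist (n • (fun x : S => a x.1)) (fun x : S => if x.1 = i then t else 0)
        ⟨i, Finset.mem_insert_self _ _⟩
      simp only [if_true] at h1
      exact lt_of_le_of_lt h1 hn
    · intro m hm
      have hmS : e m ∈ S := Finset.mem_insert_of_mem (Finset.mem_image_of_mem _
        (Finset.mem_range.mpr (by omega)))
      have h1 := dist_le_pi_dist (n • (fun x : S => a x.1)) (fun x : S => if x.1 = i then t else 0)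
        ⟨e m, hmS⟩
      simp only [if_neg (hie m)] at h1
      exact lt_of_le_of_lt h1 hn
  choose n hn using key
  have hlim : Tendsto (fun l : ℕ => 1 / ((l : ℝ) + 1)) atTop (𝓝 0) :=
    tendsto_one_div_add_atTop_nhds_zero_nat
  refine ⟨n, ?_, ?_⟩
  · intro b hb
    have : b ∈ Set.range e := by rw [← he]; exact Set.mem_insert_of_mem _ hb
    obtain ⟨m, rfl⟩ := this
    rw [tendsto_iff_dist_tendsto_zero]
    refine squeeze_zero' (Eventually.of_forall fun _ => dist_nonneg) ?_ hlim
    filter_upwards [eventually_ge_atTop m] with l hl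
    exact ((hn l).2 m hl).le
  · rw [tendsto_iff_dist_tendsto_zero]
    exact squeeze_zero (fun _ => dist_nonneg) (fun l => (hn l).1.le) hlim

end Pool.Agent.NH40.CJ
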