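import Pool.Agent.NH40.CJ.Stm

/-!
# CJ-3: conjugacy of the rotations of the infinite dimensional torus
-/

set_option autoImplicit false

open MeasureTheory Filter Topology

namespace Pool.Agent.NH40.CJ

namespace InvP

instance : IsProbabilityMeasure nu := ⟨by
  have := Measure.addHaarMeasure_self (K₀ := (⊤ : TopologicalSpace.PositiveCompacts TT))
  simpa [nu] using this⟩

instance : nu.IsAddHaarMeasure := by
  unfold nu
  infer_instance

lemma mp (α : TT) : MeasurePreserving (fun z => α + z) nu nu := measurePreserving_add_left nu α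

/-- `U` conjugates the translation by `α` to the one by `β` -/
def P (U : TT → TT) (α β : TT) : Prop := ∀ᵐ z ∂nu, U (α + z) = β + U z

lemma P_zero (U : TT → TT) : P U 0 0 := by
  refine Eventually.of_forall fun z => ?_
  rw [zero_add, zero_add]

lemma P_add {U : TT → TT} {α β α' β' : TT} (h : P U α β) (h' : P U α' β') :
    P U (α + α') (β + β') := by
  have h1 : ∀ᵐ z ∂nu, U (α + (α' + z)) = β + U (α' + z) :=
    (mp α').quasiMeasurePreserving.ae (p := fun z => U (α + z) = β + U z) h
  have h2 : ∀ᵐ z ∂nu, U (α' + z) = β' + U z := h'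
  unfold P
  filter_upwards [h1, h2] with z e1 e2
  rw [add_assoc, e1, e2, add_assoc]

lemma P_neg {U : TT → TT} {α β : TT} (h : P U α β) : P U (-α) (-β) := by
  have h1 : ∀ᵐ z ∂nu, U (α + (-α + z)) = β + U (-α + z) :=
    (mp (-α)).quasiMeasurePreserving.ae (p := fun z => U (α + z) = β + U z) h
  unfold P
  filter_upwards [h1] with z e1
  rw [add_neg_cancel_left] at e1
  rw [e1, neg_add_cancel_left]

lemma P_nsmul {U : TT → TT} {α β : TT} (h : P U α β) (n : ℕ) : P U (n • α) (n • β) := by
  induction n with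
  | zero => rw [zero_nsmul, zero_nsmul]; exact P_zero U
  | succ n ih => rw [succ_nsmul, succ_nsmul]; exact P_add ih h

lemma P_zsmul {U : TT → TT} {α β : TT} (h : P U α β) (n : ℤ) : P U (n • α) (n • β) := by
  cases n with
  | ofNat n =>
    have := P_nsmul h n
    rw [Int.ofNat_eq_natCast, natCast_zsmul, natCast_zsmul]
    exact this
  | negSucc n =>
    have := P_neg (P_nsmul h (n + 1))
    rw [negSucc_zsmul, negSucc_zsmul]
    exact this

/-- the translation as a continuous map -/
def tl (α : TT) : C(TT, TT) := ⟨fun z => α + z, continuous_const_add α⟩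

/-- small translations move the sets little -/
lemma small {θ : ℕ → TT} (hθ : Tendsto θ atTop (𝓝 0)) {A : Set TT} (hA : NullMeasurableSet A nu) :
    Tendsto (fun l => nu (symmDiff ((fun z => θ l + z) ⁻¹' A) A)) atTop (𝓝 0) := by
  have hc : Continuous tl := by
    refine ContinuousMap.continuous_of_continuous_uncurry _ ?_
    exact continuous_fst.add continuous_snd
  have h1 := tendsto_measure_symmDiff_preimage_nhds_zero (μ := nu) (ν := nu) (s := A)
    ((hc.tendsto 0).comp hθ) (Eventually.of_forall fun l => mp (θ l)) (mp 0) hA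
    (measure_ne_top nu A)
  have e : (⇑(tl 0) ⁻¹' A) = A := by
    ext z
    show (0 : TT) + z ∈ A ↔ z ∈ A
    rw [zero_add]
  rw [e] at h1
  exact h1

/-- the translations that move the open sets little are small -/
lemma conv {θ : ℕ → TT} (h : ∀ A : Set TT, IsOpen A →
    Tendsto (fun l => nu (symmDiff ((fun z => θ l + z) ⁻¹' A) A)) atTop (𝓝 0)) :
    Tendsto θ atTop (𝓝 0) := by
  rw [tendsto_nhds]
  intro U0 hU0 h0
  have hc : Continuous fun p : TT × TT => p.1 - p.2 := continuous_fst.sub continuous_snd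
  have h1 : ∀ᶠ p : TT × TT in 𝓝 (0, 0), p.1 - p.2 ∈ U0 := by
    refine hc.continuousAt.eventually ?_
    show ∀ᶠ y in 𝓝 ((0 : TT) - 0), y ∈ U0
    rw [sub_zero]
    exact hU0.mem_nhds h0
  rw [nhds_prod_eq] at h1
  obtain ⟨V', hV', hV⟩ := (Filter.eventually_prod_self_iff (r := fun a b : TT => a - b ∈ U0)).1 h1
  obtain ⟨V, hV1, hVo, hV0⟩ := mem_nhds_iff.1 hV'
  have hpos : 0 < nu V := hVo.measure_pos nu ⟨0, hV0⟩
  have h2 := (h V hVo).eventually (gt_mem_nhds hpos)
  filter_upwards [h2] with l hl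
  by_contra hn
  have h3 : V ⊆ symmDiff ((fun z => θ l + z) ⁻¹' V) V := by
    intro z hz
    refine Or.inr ⟨hz, fun hz' => hn ?_⟩
    have h4 := hV (θ l + z) (hV1 hz') z (hV1 hz)
    simpa using h4
  exact absurd (measure_mono h3) (not_le.2 hl)

/-- conjugate rotations move the sets in the same way -/
lemma moves {U : TT → TT} (hU : MeasurePreserving U nu nu) {α β : TT} (h : P U α β) {A : Set TT}
    (hA : MeasurableSet A) :
    nu (symmDiff ((fun z => β + z) ⁻¹' A) A) =
      nu (symmDiff ((fun z => α + z) ⁻¹' (U ⁻¹' A)) (U ⁻¹' A)) := by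
  have hB : MeasurableSet (symmDiff ((fun z => β + z) ⁻¹' A) A) :=
    (((mp β).measurable) hA).symmDiff hA
  rw [← hU.measure_preimage hB.nullMeasurableSet]
  refine measure_congr ?_
  filter_upwards [h] with z hz
  apply propext
  show (z ∈ U ⁻¹' symmDiff ((fun z => β + z) ⁻¹' A) A) ↔
    z ∈ symmDiff ((fun z => α + z) ⁻¹' (U ⁻¹' A)) (U ⁻¹' A)
  simp only [Set.mem_preimage, Set.mem_symmDiff, hz]

end InvP

open InvP

/-- CJ-3: the invariant -/
theorem t_INV : S_INV := by
  rintro I a ha x y ⟨U, hU, hc⟩ _ ⟨m, rfl⟩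
  by_contra hi
  have ht : ((1 / 2 : ℝ) : UnitAddCircle) ≠ 0 := by
    intro h
    rw [AddCircle.coe_eq_zero_iff] at h
    obtain ⟨n, hn⟩ := h
    rw [zsmul_eq_mul, mul_one] at hn
    have h2 : (2 * n : ℝ) = 1 := by linarith
    have h3 : (2 * n : ℤ) = 1 := by exact_mod_cast h2
    omega
  obtain ⟨n, h1, h2⟩ := ha.app (Set.range x) (Set.countable_range x) (y m) hi _
  have hx : Tendsto (fun l => n l • (a ∘ x)) atTop (𝓝 (0 : TT)) := by
    rw [tendsto_pi_nhds]
    intro k
    exact h1 (x k) ⟨k, rfl⟩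
  have hy : Tendsto (fun l => n l • (a ∘ y)) atTop (𝓝 (0 : TT)) := by
    refine conv fun A hA => ?_
    have h3 : ∀ l, P U (n l • (a ∘ x)) (n l • (a ∘ y)) := by
      intro l
      have h4 : P U (a ∘ x) (a ∘ y) := hc
      exact P_zsmul h4 (n l)
    have h5 := small hx (A := U ⁻¹' A) (hU.measurable hA.measurableSet).nullMeasurableSet
    refine h5.congr fun l => ?_
    exact (moves hU (h3 l) hA.measurableSet).symm
  have h6 : Tendsto (fun l => n l • a (y m)) atTop (𝓝 0) := (tendsto_pi_nhds.1 hy) m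
  exact ht (tendsto_nhds_unique h2 h6)

namespace InvP

/-- the permutation of the coordinates -/
def pm (σ : Equiv.Perm ℕ) : TT ≃+ TT where
  toFun z := z ∘ σ
  invFun z := z ∘ σ.symm
  left_inv z := by
    funext k
    simp
  right_inv z := by
    funext k
    simp
  map_add' z z' := rfl

lemma pm_cont (σ : Equiv.Perm ℕ) : Continuous (pm σ) :=
  continuous_pi fun k => continuous_apply (σ k)

lemma pm_cont' (σ : Equiv.Perm ℕ) : Continuous (pm σ).symm :=
  continuous_pi fun k => continuous_apply (σ.symm k)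

end InvP

/-- CJ-3: the conjugacy -/
theorem t_PER : S_PER := by
  intro I a x y hx hy hxy
  obtain ⟨σ, hσ⟩ : ∃ σ : Equiv.Perm ℕ, ∀ n, x (σ n) = y n := by
    refine ⟨((Equiv.ofInjective y hy).trans (Equiv.setCongr hxy.symm)).trans
      (Equiv.ofInjective x hx).symm, fun n => ?_⟩
    have := Equiv.apply_ofInjective_symm hx ⟨y n, hxy ▸ ⟨n, rfl⟩⟩
    exact this
  refine ⟨{ toEquiv := (pm σ).toEquiv, measurable_toFun := (pm_cont σ).measurable,
            measurable_invFun := (pm_cont' σ).measurable }, ?_, fun z => ?_⟩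
  · have h := AddMonoidHom.measurePreserving (μ := nu) (ν := nu) (f := (pm σ).toAddMonoidHom) (pm_cont σ)
      (pm σ).surjective (by simp)
    exact h
  · funext k
    show (a ∘ x + z) (σ k) = (a ∘ y + z ∘ σ) k
    show a (x (σ k)) + z (σ k) = a (y k) + z (σ k)
    rw [hσ]

end Pool.Agent.NH40.CJ
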