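import Pool.Agent.NH40.CJ.Abs

/-!
# Project CJ: the space of injective sequences in an uncountable set
-/

set_option autoImplicit false
set_option linter.unusedSectionVars false

namespace Pool.Agent.NH40.CJ

open Set Topology Filter MeasureTheory

namespace Sq

variable {I : Type} [TopologicalSpace I] [DiscreteTopology I]

/-- injective sequences -/
abbrev SS (I : Type) : Type := {x : ℕ → I // Function.Injective x}

lemma isClosed_inj : IsClosed {x : ℕ → I | Function.Injective x} := by
  have h : {x : ℕ → I | Function.Injective x} = ⋂ m : ℕ, ⋂ n : ℕ, {x | x m = x n → m = n} := by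
    ext x
    simp [Function.Injective]
  rw [h]
  refine isClosed_iInter fun m => isClosed_iInter fun n => ?_
  by_cases hmn : m = n
  · subst hmn
    have : {x : ℕ → I | x m = x m → m = m} = univ := by ext; simp
    rw [this]; exact isClosed_univ
  · have : {x : ℕ → I | x m = x n → m = n} = {x | x m = x n}ᶜ := by
      ext x
      simp [hmn]
    rw [this]
    refine (IsOpen.isClosed_compl ?_)
    have h2 : {x : ℕ → I | x m = x n} = (fun x : ℕ → I => (x m, x n)) ⁻¹' {p | p.1 = p.2} := rfl
    rw [h2]
    exact (isOpen_discrete _).preimage ((continuous_apply m).prodMk (continuous_apply n))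

instance cmz : TopologicalSpace.IsCompletelyMetrizableSpace (SS I) :=
  (isClosed_inj (I := I)).isCompletelyMetrizableSpace

/-- the coordinates -/
lemma cont_coord (n : ℕ) : Continuous fun x : SS I => x.1 n :=
  (continuous_apply n).comp continuous_subtype_val

/-- the cylinders -/
def cyl (x : SS I) (k : ℕ) : Set (SS I) := {y | ∀ i < k, y.1 i = x.1 i}

lemma isClopen_cyl (x : SS I) (k : ℕ) : IsClopen (cyl x k) := by
  have h : cyl x k = ⋂ i ∈ Finset.range k, {y : SS I | y.1 i = x.1 i} := by
    ext y
    simp [cyl]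
  rw [h]
  refine isClopen_biInter_finset fun i _ => ?_
  exact (isClopen_discrete {x.1 i}).preimage (cont_coord i)

lemma exists_cyl {U : Set (SS I)} (hU : IsOpen U) {x : SS I} (hx : x ∈ U) : ∃ k, cyl x k ⊆ U := by
  obtain ⟨W, hW, rfl⟩ := isOpen_induced_iff.1 hU
  obtain ⟨F, w, hw1, hw2⟩ := isOpen_pi_iff.1 hW x.1 hx
  refine ⟨F.sup id + 1, fun y hy => hw2 ?_⟩
  intro i hi
  have h1 : i < F.sup id + 1 := Nat.lt_succ_of_le (Finset.le_sup (f := id) hi)
  rw [hy i h1]
  exact (hw1 i hi).2

lemma base (U : Set (SS I)) (hU : IsOpen U) (hne : U.Nonempty) :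
    ∃ V ⊆ U, IsClopen V ∧ V.Nonempty := by
  obtain ⟨x, hx⟩ := hne
  obtain ⟨k, hk⟩ := exists_cyl hU hx
  exact ⟨cyl x k, hk, isClopen_cyl x k, x, fun _ _ => rfl⟩

/-- changing one value -/
def upd (x : SS I) (k : ℕ) (i : I) (hi : i ∉ range x.1) : SS I :=
  ⟨Function.update x.1 k i, by
    intro m n hmn
    by_cases hm : m = k
    · by_cases hn : n = k
      · rw [hm, hn]
      · rw [hm, Function.update_self, Function.update_of_ne hn] at hmn
        exact absurd ⟨n, hmn.symm⟩ hi
    · by_cases hn : n = k
      · rw [hn, Function.update_self, Function.update_of_ne hm] at hmn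
        exact absurd ⟨m, hmn⟩ hi
      · rw [Function.update_of_ne hm, Function.update_of_ne hn] at hmn
        exact x.2 hmn⟩

lemma upd_self (x : SS I) (k : ℕ) (i : I) (hi : i ∉ range x.1) : (upd x k i hi).1 k = i :=
  Function.update_self _ _ _

lemma upd_mem (x : SS I) (k : ℕ) (i : I) (hi : i ∉ range x.1) : upd x k i hi ∈ cyl x k := by
  intro j hj
  exact Function.update_of_ne (by omega) _ _

lemma nonempty [Infinite I] : Nonempty (SS I) := by
  obtain ⟨f⟩ := Infinite.natEmbedding I |> fun f => (⟨f⟩ : Nonempty (ℕ ↪ I))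
  exact ⟨⟨f, f.injective⟩⟩

lemma dense_one (n : ℕ) : {p : SS I × SS I | p.1.1 n ∈ range p.2.1} ∈ residual (SS I × SS I) := by
  refine residual_of_dense_open ?_ ?_
  · have h : {p : SS I × SS I | p.1.1 n ∈ range p.2.1} =
        ⋃ m : ℕ, (fun p : SS I × SS I => (p.2.1 m, p.1.1 n)) ⁻¹' {q | q.1 = q.2} := by
      ext p
      simp
    rw [h]
    refine isOpen_iUnion fun m => (isOpen_discrete _).preimage ?_
    exact ((cont_coord m).comp continuous_snd).prodMk ((cont_coord n).comp continuous_fst)
  · rw [dense_iff_inter_open]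
    rintro O hO ⟨⟨x, y⟩, hxy⟩
    by_cases h : x.1 n ∈ range y.1
    · exact ⟨(x, y), hxy, h⟩
    · obtain ⟨U, V, hU, hV, hxU, hyV, hUV⟩ := isOpen_prod_iff.1 hO x y hxy
      obtain ⟨k, hk⟩ := exists_cyl hV hyV
      exact ⟨(x, upd y k _ h), hUV ⟨hxU, hk (upd_mem y k _ h)⟩, k, upd_self y k _ h⟩

lemma dense_two (n : ℕ) : {p : SS I × SS I | p.2.1 n ∈ range p.1.1} ∈ residual (SS I × SS I) := by
  exact tendsto_residual_of_isOpenMap (Homeomorph.prodComm (SS I) (SS I)).continuous
    (Homeomorph.prodComm (SS I) (SS I)).isOpenMap (dense_one (I := I) n)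

/-- almost all pairs have the same range -/
lemma residual_range : {p : SS I × SS I | range p.1.1 = range p.2.1} ∈ residual (SS I × SS I) := by
  have h1 := (eventually_countable_forall (l := residual (SS I × SS I))
    (p := fun p n => p.1.1 n ∈ range p.2.1)).2 (fun n => dense_one n)
  have h2 := (eventually_countable_forall (l := residual (SS I × SS I))
    (p := fun p n => p.2.1 n ∈ range p.1.1)).2 (fun n => dense_two n)
  filter_upwards [h1, h2] with p hp1 hp2
  apply Subset.antisymm
  · rintro _ ⟨n, rfl⟩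
    exact hp1 n
  · rintro _ ⟨n, rfl⟩
    exact hp2 n

/-- the classes are meagre -/
lemma meagre_class [Uncountable I] (x : SS I) : IsMeagre {y : SS I | range x.1 = range y.1} := by
  have hcl : IsClosed {y : SS I | ∀ n, y.1 n ∈ range x.1} := by
    have h : {y : SS I | ∀ n, y.1 n ∈ range x.1} = ⋂ n, (fun y : SS I => y.1 n) ⁻¹' (range x.1) := by
      ext y
      simp
    rw [h]
    exact isClosed_iInter fun n => (isClosed_discrete _).preimage (cont_coord n)
  have hnd : IsNowhereDense {y : SS I | ∀ n, y.1 n ∈ range x.1} := by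
    rw [hcl.isNowhereDense_iff, eq_empty_iff_forall_notMem]
    intro y hy
    obtain ⟨k, hk⟩ := exists_cyl isOpen_interior hy
    obtain ⟨i, hi⟩ : ∃ i, i ∉ range x.1 := by
      by_contra hcon
      push Not at hcon
      have h1 : (range x.1) = univ := eq_univ_of_forall hcon
      have h2 : (univ : Set I).Countable := h1 ▸ countable_range x.1
      exact not_countable (α := I) (countable_univ_iff.1 h2)
    have hiy : i ∉ range y.1 := by
      rintro ⟨n, rfl⟩
      exact hi (interior_subset hy n)
    have h3 := interior_subset (hk (upd_mem y k i hiy)) k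
    rw [upd_self] at h3
    exact hi h3
  refine hnd.isMeagre.mono ?_
  intro y hy n
  rw [show range x.1 = range y.1 from hy]
  exact mem_range_self n

end Sq

end Pool.Agent.NH40.CJ
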