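import Pool.Agent.NH40.CJ.Seq
import Pool.Agent.NH40.CJ.IndP
import Pool.Agent.NH40.CJ.ErgP
import Pool.Agent.NH40.CJ.InvP
import Pool.Agent.NH40.CJ.CplP
import Pool.Agent.Results.MP_1b52a3_lc.NoBorelReduction

/-!
# Project CJ: transport of the rotations to a standard probability space, and the full group
-/

set_option autoImplicit false
set_option linter.unusedSectionVars false

namespace Pool.Agent.NH40.CJ

open Set Topology Filter MeasureTheory
open Pool.Agent.Helper212.ConjBorel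
open Pool.Agent.Results.MP_1b52a3_lc.NoBorelReduction (PreAut Aut mk_eq_mk_iff separable_preFull
  secondCountable_fullGroup)

namespace Tr

variable {X : Type*} [MeasurableSpace X] {μ : Measure X}

/-- Transport of an automorphism of the torus to `X`. -/
noncomputable def trp (e : TT ≃ᵐ X) (he : MeasurePreserving e nu μ) (F : TT ≃ᵐ TT)
    (hF : MeasurePreserving F nu nu) : PreAut μ :=
  ⟨((e.symm.trans F).trans e).toEquiv,
    ⟨he.comp (hF.comp (MeasurePreserving.symm e he)),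
      he.comp ((MeasurePreserving.symm F hF).comp (MeasurePreserving.symm e he))⟩⟩

theorem trp_apply (e : TT ≃ᵐ X) (he : MeasurePreserving e nu μ) (F : TT ≃ᵐ TT)
    (hF : MeasurePreserving F nu nu) (x : X) : (trp e he F hF).1 x = e (F (e.symm x)) := rfl

lemma mp_rot (θ : TT) : MeasurePreserving (rot θ) nu nu := t_ERG.2.2.1 θ

/-- the transported rotation -/
noncomputable def RR (e : TT ≃ᵐ X) (he : MeasurePreserving e nu μ) (θ : TT) : PreAut μ :=
  trp e he (rot θ) (mp_rot θ)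

theorem RR_apply (e : TT ≃ᵐ X) (he : MeasurePreserving e nu μ) (θ : TT) (x : X) :
    (RR e he θ).1 x = e (rot θ (e.symm x)) := rfl

theorem continuous_RR (e : TT ≃ᵐ X) (he : MeasurePreserving e nu μ) : Continuous (RR e he) := by
  rw [continuous_induced_rng]
  refine continuous_pi fun p => ?_
  obtain ⟨⟨A, hA⟩, ⟨B, hB⟩⟩ := p
  have h1 := t_ERG.2.2.2.2 (e ⁻¹' A) (e ⁻¹' B) (e.measurable hA) (e.measurable hB)
  have h2 : ∀ θ, μ.real ((RR e he θ).1 ⁻¹' A ∩ B)
      = nu.real ((rot θ) ⁻¹' (e ⁻¹' A) ∩ e ⁻¹' B) := by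
    intro θ
    have h3 : e ⁻¹' ((RR e he θ).1 ⁻¹' A ∩ B) = (rot θ) ⁻¹' (e ⁻¹' A) ∩ e ⁻¹' B := by
      ext x
      show (e (rot θ (e.symm (e x))) ∈ A ∧ e x ∈ B) ↔ (e (rot θ x) ∈ A ∧ e x ∈ B)
      rw [e.symm_apply_apply]
    have h4 : MeasurableSet ((RR e he θ).1 ⁻¹' A ∩ B) := ((RR e he θ).2.1.measurable hA).inter hB
    rw [← h3, measureReal_def, measureReal_def, he.measure_preimage h4.nullMeasurableSet]
  exact h1.congr fun θ => (h2 θ).symm

theorem ergodic_RR (e : TT ≃ᵐ X) (he : MeasurePreserving e nu μ) {θ : TT}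
    (h : Ergodic (rot θ) nu) : Ergodic ((RR e he θ).1 : X → X) μ := by
  have hf : ((RR e he θ).1 : X → X) = e ∘ (rot θ) ∘ e.symm := rfl
  rw [hf]
  refine ⟨he.comp ((mp_rot θ).comp (MeasurePreserving.symm e he)), ⟨?_⟩⟩
  intro s hs hinv
  have h1 : (rot θ) ⁻¹' (e ⁻¹' s) = e ⁻¹' s := by
    have h2 : (rot θ) ⁻¹' (e ⁻¹' s) = e ⁻¹' ((e ∘ (rot θ) ∘ e.symm) ⁻¹' s) := by
      ext z
      show e (rot θ z) ∈ s ↔ e (rot θ (e.symm (e z))) ∈ s
      rw [e.symm_apply_apply]
    rw [h2, hinv]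
  have h3 := h.toPreErgodic.aeconst_set (e.measurable hs) h1
  have h4 := (MeasurePreserving.symm e he).quasiMeasurePreserving.tendsto_ae
  rw [Filter.eventuallyConst_set] at h3 ⊢
  rcases h3 with h3 | h3
  · left
    filter_upwards [h4 h3] with x hx
    have hx' : e (e.symm x) ∈ s := hx
    rwa [e.apply_symm_apply] at hx'
  · right
    filter_upwards [h4 h3] with x hx
    intro hxs
    have hx' : e (e.symm x) ∉ s := hx
    rw [e.apply_symm_apply] at hx'
    exact hx' hxs

/-- equal ranges give conjugate rotations -/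
theorem conj_of_range (e : TT ≃ᵐ X) (he : MeasurePreserving e nu μ) {I : Type}
    (a : I → UnitAddCircle) {x y : ℕ → I} (hx : Function.Injective x) (hy : Function.Injective y)
    (h : range x = range y) : ∃ U : Aut μ,
      (QuotientGroup.mk (RR e he (a ∘ y)) : Aut μ) =
        U * QuotientGroup.mk (RR e he (a ∘ x)) * U⁻¹ := by
  obtain ⟨U, hU, hUx⟩ := t_PER a x y hx hy h
  refine ⟨QuotientGroup.mk (trp e he U hU), ?_⟩
  rw [eq_mul_inv_iff_mul_eq]
  refine congrArg QuotientGroup.mk (Subtype.ext (Equiv.ext fun z => ?_))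
  show e (rot (a ∘ y) (e.symm (e (U (e.symm z))))) = e (U (e.symm (e (rot (a ∘ x) (e.symm z)))))
  rw [e.symm_apply_apply, e.symm_apply_apply, hUx]

/-- conjugate rotations have equal ranges -/
theorem range_subset_of_conj (e : TT ≃ᵐ X) (he : MeasurePreserving e nu μ) {I : Type}
    {a : I → UnitAddCircle} (ha : Ind a) {x y : ℕ → I} (h : ∃ U : Aut μ,
      (QuotientGroup.mk (RR e he (a ∘ y)) : Aut μ) =
        U * QuotientGroup.mk (RR e he (a ∘ x)) * U⁻¹) : range y ⊆ range x := by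
  obtain ⟨U, hU⟩ := h
  obtain ⟨W, rfl⟩ := QuotientGroup.mk_surjective U
  rw [eq_mul_inv_iff_mul_eq] at hU
  have h1 : (QuotientGroup.mk (RR e he (a ∘ y) * W) : Aut μ) =
      QuotientGroup.mk (W * RR e he (a ∘ x)) := hU
  rw [mk_eq_mk_iff] at h1
  have h2 : ∀ᵐ z ∂μ, e (rot (a ∘ y) (e.symm (W.1 z))) = W.1 (e (rot (a ∘ x) (e.symm z))) := h1
  have h3 := he.quasiMeasurePreserving.ae h2
  refine t_INV ha x y ⟨fun z => e.symm (W.1 (e z)),
    (MeasurePreserving.symm e he).comp (W.2.1.comp he), ?_⟩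
  filter_upwards [h3] with z hz
  rw [e.symm_apply_apply] at hz
  show e.symm (W.1 (e (rot (a ∘ x) z))) = rot (a ∘ y) (e.symm (W.1 (e z)))
  rw [← hz, e.symm_apply_apply]

theorem range_of_conj (e : TT ≃ᵐ X) (he : MeasurePreserving e nu μ) {I : Type}
    {a : I → UnitAddCircle} (ha : Ind a) {x y : ℕ → I} (h : ∃ U : Aut μ,
      (QuotientGroup.mk (RR e he (a ∘ y)) : Aut μ) =
        U * QuotientGroup.mk (RR e he (a ∘ x)) * U⁻¹) : range x = range y := by
  refine Subset.antisymm ?_ (range_subset_of_conj e he ha h)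
  obtain ⟨U, hU⟩ := h
  refine range_subset_of_conj e he ha ⟨U⁻¹, ?_⟩
  rw [hU]
  group

theorem exists_torus [StandardBorelSpace X] (μ : Measure X) [IsProbabilityMeasure μ]
    [NullSingletonClass μ] : ∃ e : TT ≃ᵐ X, MeasurePreserving e nu μ := by
  have := t_ERG.1
  have := t_ERG.2.1
  obtain ⟨e1, h1⟩ := Pool.Agent.Helper212.Sq.exists_mp_equiv nu
  obtain ⟨e2, h2⟩ := Pool.Agent.Helper212.Sq.exists_mp_equiv μ
  exact ⟨e1.trans e2.symm, (MeasurePreserving.symm e2 h2).comp h1⟩

variable [StandardBorelSpace X] [IsProbabilityMeasure μ] {T₀ : X ≃ᵐ X}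

theorem tsi_fullGroup [NullSingletonClass μ] (h : Ergodic T₀ μ) : Tsi (FullGroup h) where
  complete := t_CPL h
  second := secondCountable_fullGroup
  left := by
    intro g a b
    obtain ⟨g, rfl⟩ := SeparationQuotient.surjective_mk g
    obtain ⟨a, rfl⟩ := SeparationQuotient.surjective_mk a
    obtain ⟨b, rfl⟩ := SeparationQuotient.surjective_mk b
    rw [(FullGroup.mk_mul_mk g a).1, (FullGroup.mk_mul_mk g b).1, SeparationQuotient.dist_mk,
      SeparationQuotient.dist_mk, PreFull.dist_mul_left']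
  right := by
    intro g a b
    obtain ⟨g, rfl⟩ := SeparationQuotient.surjective_mk g
    obtain ⟨a, rfl⟩ := SeparationQuotient.surjective_mk a
    obtain ⟨b, rfl⟩ := SeparationQuotient.surjective_mk b
    rw [(FullGroup.mk_mul_mk a g).1, (FullGroup.mk_mul_mk b g).1, SeparationQuotient.dist_mk,
      SeparationQuotient.dist_mk, PreFull.dist_mul_right']

end Tr

end Pool.Agent.NH40.CJ
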